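import Pool.Agent.Helper42.PW.Goals1

/-!
# Project W, packet L_ISO: automorphisms of local fields are isometries
-/

set_option autoImplicit false

namespace Pool.Agent.Helper15.PW

open Pool.Agent.Helper42.PW

theorem l_iso : L_ISO := by
  intro p _ H _ _ _ _ σ x
  rw [NormedAlgebra.norm_eq_spectralNorm ℚ_[p] (σ x), NormedAlgebra.norm_eq_spectralNorm ℚ_[p] x]
  exact (spectralNorm_eq_of_equiv σ x).symm

end Pool.Agent.Helper15.PW
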